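import Pool.Agent.H26.RhD
import Pool.Agent.H26.RhDefs

set_option autoImplicit false

namespace Pool.Agent.Results.MP_036dc9_gt.Lower

open Pool.Agent.H26.RhDefs

theorem result (d i : ℕ) (h1 : 1 ≤ i) (h2 : i + 1 ≤ d) (K : Set (V d)) (hK : IsBody K) :
    ∃ (L : Flat d) (_ : Nonempty L), dimOf L = i ∧ (∃ x ∈ K, x ∈ L) ∧
      1 + 2 * kappa (d - 1) / kappa d ≤ ratio K L :=
  Pool.Agent.H26.Rh.lower d i h1 h2 K hK.1 hK.2.1 hK.2.2

end Pool.Agent.Results.MP_036dc9_gt.Lower
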